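import Pool.Agent.Lib_helper98.K2.W.PRES
import Pool.Agent.Lib_helper98.K2.W.GROW
import Pool.Agent.Lib_helper98.K2.W.REP
import Pool.Agent.Lib_helper98.K2.W.MOB1
import Pool.Agent.Lib_helper98.K2.W.MOB2
import Pool.Agent.Lib_helper98.K2.W.SIDE
import Pool.Agent.Lib_helper98.K2.W.SUMG
import Pool.Agent.Lib_helper98.K2.W.ETA1
import Pool.Agent.Lib_helper98.K2.W.ETA2
import Pool.Agent.Lib_helper98.K2.W.ETA3
import Pool.Agent.Lib_helper98.K2.W.CUT
import Pool.Agent.Lib_helper98.K2.W.DATA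
import Pool.Agent.Lib_helper98.K2.W.SEC
import Pool.Agent.Lib_helper98.K2.W.SER1
import Pool.Agent.Lib_helper98.K2.W.SER2
import Pool.Agent.Lib_helper98.K2.W.SER3
import Pool.Agent.Lib_helper98.K2.W.DIFF
import Pool.Agent.Lib_helper98.K2.W.PU
import Pool.Agent.Lib_helper98.K2.W.INH0
import Pool.Agent.Lib_helper98.K2.W.STRIP
import Pool.Agent.Lib_helper98.K2.W.INH
import Pool.Agent.Lib_helper98.K2.W.CFI1
import Pool.Agent.Lib_helper98.K2.W.CFI2
import Pool.Agent.Lib_helper98.K2.W.CFI3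
import Pool.Agent.Lib_helper98.K2.W.CFI4
import Pool.Agent.Lib_helper98.K2.W.EMAT1
import Pool.Agent.Lib_helper98.K2.W.EMAT2
import Pool.Agent.Lib_helper98.K2.W.KER1
import Pool.Agent.Lib_helper98.K2.W.KER2
import Pool.Agent.Lib_helper98.K2.W.KER3
import Pool.Agent.Lib_helper98.K2.W.KER4
import Pool.Agent.Lib_helper98.K2.W.EG0
import Pool.Agent.Lib_helper98.K2.W.EG
import Pool.Agent.Lib_helper98.K2.W.PS1
import Pool.Agent.Lib_helper98.K2.W.PS2
import Pool.Agent.Lib_helper98.K2.W.PS3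
import Pool.Agent.Lib_helper98.K2.W.PS4
import Pool.Agent.Lib_helper98.K2.W.PSIH
import Pool.Agent.Lib_helper98.K2.W.GRB
import Pool.Agent.Lib_helper98.K2.W.LVL
import Pool.Agent.Lib_helper98.K2.W.CAU
import Pool.Agent.Lib_helper98.K2.W.DEP
import Pool.Agent.Lib_helper98.K2.W.WTR
import Pool.Agent.Lib_helper98.K2.W.VAN3
import Pool.Agent.Lib_helper98.K2.W.VAN2
import Pool.Agent.Lib_helper98.K2.W.VAN1
import Pool.Agent.Lib_helper98.K2.W.VAN
import Pool.Agent.Lib_helper98.K2.W.XI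
import Pool.Agent.Lib_helper98.K2.W.HOMV
import Pool.Agent.Lib_helper98.K2.W.SURJ
import Pool.Agent.Lib_helper98.K2.W.RED
import Pool.Agent.Lib_helper98.K2.W.GOOD
import Pool.Agent.Lib_helper98.K2.W.GM
import Pool.Agent.Lib_helper98.K2.W.EXF
import Pool.Agent.Lib_helper98.K2.W.JINV
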