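import Mathlib

set_option autoImplicit false

/-!
# Uniqueness from second order vanishing at the radii `√(2n)` (MP_a65497_an): definitions

`H` upper half plane, `mu z = (1 + |z|²) / Im z`, `SL(2, ℤ)` acting by `mob`, the Dedekind function
`et`, the matrices `AS`, `AT` (weight 0 normalisation) and `BT` (weight `d/2` normalisation) of the
three-dimensional representation, and the local matrix `Einv` at the cusp.
-/

namespace Pool.Agent.K2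

open Complex Matrix MeasureTheory
open scoped MatrixGroups Real

noncomputable section

/-- the upper half plane -/
def H : Set ℂ := {z | 0 < z.im}

/-- `(1 + |z|²) / Im z`, at least 2 and invariant under `z ↦ -1/z` -/
def mu (z : ℂ) : ℝ := (1 + ‖z‖ ^ 2) / z.im

/-- size of the entries -/
def sz (g : SL(2, ℤ)) : ℝ :=
  |(g 0 0 : ℝ)| + |(g 0 1 : ℝ)| + |(g 1 0 : ℝ)| + |(g 1 1 : ℝ)|

def den (g : SL(2, ℤ)) (z : ℂ) : ℂ := (g 1 0 : ℂ) * z + (g 1 1 : ℂ)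

def mob (g : SL(2, ℤ)) (z : ℂ) : ℂ := ((g 0 0 : ℂ) * z + (g 0 1 : ℂ)) / den g z

/-- `(a z + b) + i (c z + d) = (g z + i) (c z + d)` -/
def num (g : SL(2, ℤ)) (z : ℂ) : ℂ := ((g 0 0 : ℂ) * z + (g 0 1 : ℂ)) + I * den g z

/-- Dedekind eta function -/
def et (z : ℂ) : ℂ := ModularForm.eta z

def Del (z : ℂ) : ℂ := et z ^ 24

def Q (n : ℕ) (z : ℂ) : ℂ := Del z ^ n * (z + I) ^ (12 * n)

/-- the side of `g e^(i pi/3)` with respect to the imaginary half line: the sign of `NN g` -/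
def NN (g : SL(2, ℤ)) : ℤ :=
  2 * (g 0 0 * g 1 0) + 2 * (g 0 1 * g 1 1) + (g 0 0 * g 1 1 + g 0 1 * g 1 0)

variable (d : ℕ) (e : ℤ)

/-- `e^(-pi i d/12)` -/
def th : ℂ := cexp (-(π * I * d / 12))

/-- `e^(pi i d/12)` -/
def thi : ℂ := cexp (π * I * d / 12)

/-- `e^(pi i d/4)` -/
def cc : ℂ := cexp (π * I * d / 4)

def lam : ℂ := e * cc d

/-- action of `S`, order of the components `v, w, u` -/
def AS : Matrix (Fin 3) (Fin 3) ℂ := !![-(e : ℂ), 0, 0; 0, 0, 1; 0, 1, 0]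

/-- action of `T`, weight 0 normalisation -/
def AT : Matrix (Fin 3) (Fin 3) ℂ :=
  !![th d, th d, 0; 0, th d, 0; thi d ^ 2 + e * th d, e * th d, e * thi d ^ 2]

/-- action of `T`, weight `d/2` normalisation -/
def BT : Matrix (Fin 3) (Fin 3) ℂ :=
  !![1, 1, 0; 0, 1, 0; cc d + e, (e : ℂ), lam d e]

/-- the exponent of the third component -/
def nu : ℝ := Int.fract ((d : ℝ) / 8 + (1 - (e : ℝ)) / 4)

/-- `(cc + e) / (lam - 1)` (0 if `lam = 1`) -/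
def y0 : ℂ := if lam d e = 1 then 0 else (cc d + e) / (lam d e - 1)

/-- third row of the local fundamental matrix, entry `v` -/
def e20 (z : ℂ) : ℂ := if lam d e = 1 then 2 * e * z else -y0 d e

/-- third row of the local fundamental matrix, entry `w` -/
def e21 (z : ℂ) : ℂ :=
  if lam d e = 1 then e * z ^ 2 else -((e + y0 d e) / (lam d e - 1)) - y0 d e * z

/-- inverse of the local fundamental matrix `E = (1, z, 0; 0, 1, 0; e20, e21, q^nu)` -/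
def Einv (z : ℂ) : Matrix (Fin 3) (Fin 3) ℂ :=
  !![1, -z, 0; 0, 1, 0;
    -(cexp (-(2 * π * I * nu d e * z)) * e20 d e z),
    -(cexp (-(2 * π * I * nu d e * z)) * (e21 d e z - z * e20 d e z)),
    cexp (-(2 * π * I * nu d e * z))]

/-- the periodic functions attached to a solution -/
def Pc (G : ℂ → Fin 3 → ℂ) (i : Fin 3) (z : ℂ) : ℂ := (Einv d e z *ᵥ G z) i

/-- Fourier coefficient -/
def cf (f : ℂ → ℂ) (m : ℤ) (Y : ℝ) : ℂ :=
  ∫ X in (0 : ℝ)..1, f (X + Y * I) * cexp (-(2 * π * I * m * (X + Y * I)))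

/-- `eta(-1/z)^d / eta(z)^d = (z/i)^(d/2)` -/
def Jd (z : ℂ) : ℂ := (et (-1 / z) / et z) ^ d

/-- homogeneous forms of weight `d/2`, holomorphic on `H`, growth `e^(2 pi n y)` at the cusp -/
structure Hom (n : ℕ) (G : ℂ → Fin 3 → ℂ) : Prop where
  hol : ∀ i, DifferentiableOn ℂ (fun z => G z i) H
  T : ∀ z ∈ H, G (z + 1) = BT d e *ᵥ G z
  S : ∀ z ∈ H, G (-1 / z) = Jd d z • (AS e *ᵥ G z)
  gr : ∃ (C : ℝ) (a : ℕ), ∀ z ∈ H, 1 ≤ z.im → ∀ i,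
    ‖G z i‖ ≤ C * mu z ^ a * Real.exp (2 * π * n * z.im)

/-- functional of the principal part -/
def Lxi (n : ℕ) (ξ : ℕ → Fin 3 → ℂ) (G : ℂ → Fin 3 → ℂ) (Y : ℝ) : ℂ :=
  ∑ m ∈ Finset.range (n + 1), ∑ i, ξ m i * cf (Pc d e G i) (-(m : ℤ)) Y

/-- moderate growth on `H` -/
def Mod (f : ℂ → ℂ) : Prop := ∃ (C : ℝ) (a : ℕ), ∀ z ∈ H, ‖f z‖ ≤ C * mu z ^ a

/-- the data `e^(pi i r² z) (1 - q)` -/
def ee (r : ℝ) (z : ℂ) : ℂ := cexp (π * I * r ^ 2 * z) * (1 - cexp (2 * π * I * z))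

/-- `D = e_r + ε e_r|S` -/
def DD (r : ℝ) (z : ℂ) : ℂ := ee r z + e * ((Jd d z)⁻¹ * ee r (-1 / z))

/-- `D / η^d` -/
def Dh (r : ℝ) (z : ℂ) : ℂ := DD d e r z / et z ^ d

def dw (r : ℝ) (z : ℂ) : ℂ := -Dh d e r z + th d * Dh d e r (z - 1)

/-- the inhomogeneity, weight 0 normalisation -/
def dv (r : ℝ) (z : ℂ) : Fin 3 → ℂ := ![Dh d e r z, dw d e r z, -dw d e r (-1 / z)]

/-- the weight 0 representation of `SL(2, ℤ)`, with polynomial growth -/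
structure IsRep (ρ : SL(2, ℤ) →* Matrix (Fin 3) (Fin 3) ℂ) (C0 : ℝ) (a0 : ℕ) : Prop where
  S : ρ ModularGroup.S = AS e
  T : ρ ModularGroup.T = AT d e
  gr : ∀ g i j, ‖ρ g i j‖ ≤ C0 * sz g ^ a0

/-- term of the inhomogeneous series; the seed is `gp / Q n` on the positive side and `gm / Q n`
on the negative side -/
def tm (ρ : SL(2, ℤ) →* Matrix (Fin 3) (Fin 3) ℂ) (n : ℕ) (gp gm : ℂ → Fin 3 → ℂ)
    (g : SL(2, ℤ)) (z : ℂ) : Fin 3 → ℂ :=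
  (Q n (mob g z))⁻¹ • (ρ g⁻¹ *ᵥ (if 0 < NN g then gp (mob g z) else gm (mob g z)))

/-- inhomogeneous series -/
def FF (ρ : SL(2, ℤ) →* Matrix (Fin 3) (Fin 3) ℂ) (n : ℕ) (gp gm : ℂ → Fin 3 → ℂ)
    (z : ℂ) : Fin 3 → ℂ := ∑' g : SL(2, ℤ), tm ρ n gp gm g z

def psi (n : ℕ) (w z : ℂ) : ℂ := Q n z / (Q n w * (z - w))

/-- kernel: weight 0 (representation `ρ`) in `t`, poles at the orbit of `z` -/
def KK (ρ : SL(2, ℤ) →* Matrix (Fin 3) (Fin 3) ℂ) (n : ℕ) (t z : ℂ) :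
    Matrix (Fin 3) (Fin 3) ℂ := ∑' g : SL(2, ℤ), psi n (mob g t) z • ρ g⁻¹

/-- weight `d/2` version of a column of the kernel -/
def KG (ρ : SL(2, ℤ) →* Matrix (Fin 3) (Fin 3) ℂ) (n : ℕ) (z : ℂ) (x : Fin 3 → ℂ) (t : ℂ) :
    Fin 3 → ℂ := et t ^ d • (KK ρ n t z *ᵥ x)

/-- the matrix with rows `f`, `f'`, `f''` -/
def WM (f : ℂ → Fin 3 → ℂ) (z : ℂ) : Matrix (Fin 3) (Fin 3) ℂ :=
  Matrix.of ![fun i => f z i, fun i => deriv (fun w => f w i) z,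
    fun i => deriv (deriv (fun w => f w i)) z]

/-- a row form of weight 2 with the growth of section 7 -/
structure Row (ψ : ℂ → Fin 3 → ℂ) (C : ℝ) (a : ℕ) : Prop where
  hol : ∀ i, DifferentiableOn ℂ (fun z => ψ z i) H
  T : ∀ z ∈ H, ψ (z + 1) ᵥ* AT d e = ψ z
  S : ∀ z ∈ H, ψ (-1 / z) ᵥ* AS e = z ^ 2 • ψ z
  w : ∀ z : ℂ, 3 ≤ z.im →
    ‖ψ z 1‖ ≤ C * mu z ^ a * Real.exp (-(2 * π * (((d : ℝ) / 24) * z.im)))
  u : ∀ z : ℂ, 3 ≤ z.im → ‖ψ z 2‖ ≤ C * mu z ^ a *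
        Real.exp (-(2 * π * (((d : ℝ) / 24 + 1 - nu d e) * z.im)))
  v : ∀ z : ℂ, 3 ≤ z.im → ‖ψ z 0 - y0 d e * ψ z 2‖ ≤ C * mu z ^ a *
        Real.exp (-(2 * π * (((d : ℝ) / 24 + 1) * z.im)))

end

end Pool.Agent.K2
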